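import Pool.Agent.Helper16.Kak.D8
import Pool.Agent.Helper31.Kak.D4

/-!
# Module D10: back and forth (problem MP_013a6c_an)
-/

open MeasureTheory Set Topology Filter
open scoped symmDiff ENNReal ProbabilityTheory

namespace KakC

/-- a number which bounds `n` and the first `n` values of `α` -/
def d10m (α : Equiv.Perm ℕ) (n : ℕ) : ℕ := n + ∑ j ∈ Finset.range n, (α j + 1)

theorem d10m_le (α : Equiv.Perm ℕ) (n : ℕ) : n ≤ d10m α n := Nat.le_add_right _ _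

theorem d10m_lt (α : Equiv.Perm ℕ) {n j : ℕ} (hj : j < n) : α j < d10m α n := by
  unfold d10m
  have h := Finset.single_le_sum (f := fun j => α j + 1) (fun _ _ => Nat.zero_le _)
    (Finset.mem_range.2 hj)
  have h' : α j + 1 ≤ ∑ j ∈ Finset.range n, (α j + 1) := h
  omega

theorem d10_stab {α w : Equiv.Perm ℕ} {n : ℕ} (hw : w ∈ Stab (d10m α n)) {j : ℕ} (hj : j < n) :
    (w * α) j = α j ∧ (w * α)⁻¹ j = α⁻¹ j := by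
  constructor
  · rw [Equiv.Perm.mul_apply]
    exact hw _ (d10m_lt α hj)
  · rw [mul_inv_rev, Equiv.Perm.mul_apply]
    congr 1
    exact (Stab (d10m α n)).inv_mem hw _ (hj.trans_le (d10m_le α n))

/-- limits of eventually constant sequences of permutations -/
theorem d10_limit (α : ℕ → Equiv.Perm ℕ)
    (h : ∀ n, ∀ j < n, α (n + 1) j = α n j ∧ (α (n + 1))⁻¹ j = (α n)⁻¹ j) :
    ∃ a : Equiv.Perm ℕ, ∀ j, ∀ n, j < n → α n j = a j ∧ (α n)⁻¹ j = a⁻¹ j := by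
  have h1 : ∀ j n, j < n → α n j = α (j + 1) j ∧ (α n)⁻¹ j = (α (j + 1))⁻¹ j := by
    intro j n hn
    induction n with
    | zero => omega
    | succ n ih =>
      rcases Nat.lt_succ_iff_lt_or_eq.1 hn with h2 | h2
      · obtain ⟨h3, h4⟩ := ih h2
        obtain ⟨h5, h6⟩ := h n j h2
        exact ⟨h5.trans h3, h6.trans h4⟩
      · subst h2
        exact ⟨rfl, rfl⟩
  refine ⟨⟨fun j => α (j + 1) j, fun j => (α (j + 1))⁻¹ j, ?_, ?_⟩, ?_⟩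
  · intro j
    set k := α (j + 1) j with hk
    set n := max (j + 1) (k + 1) with hn
    have hj : j < n := lt_of_lt_of_le (Nat.lt_succ_self j) (le_max_left _ _)
    have hkn : k < n := lt_of_lt_of_le (Nat.lt_succ_self k) (le_max_right _ _)
    have h2 := (h1 k n hkn).2
    have h3 := (h1 j n hj).1
    change (α (k + 1))⁻¹ k = j
    rw [← h2, hk, ← h3]
    simp
  · intro j
    set k := (α (j + 1))⁻¹ j with hk
    set n := max (j + 1) (k + 1) with hn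
    have hj : j < n := lt_of_lt_of_le (Nat.lt_succ_self j) (le_max_left _ _)
    have hkn : k < n := lt_of_lt_of_le (Nat.lt_succ_self k) (le_max_right _ _)
    have h2 := (h1 k n hkn).1
    have h3 := (h1 j n hj).2
    change α (k + 1) k = j
    rw [← h2, hk, ← h3]
    simp
  · intro j n hn
    exact h1 j n hn

section
variable {Z : Type*} [MeasurableSpace Z] [StandardBorelSpace Z] [MulAction (Equiv.Perm ℕ) Z]

theorem d10_str (𝒜 : ℕ → Set Z) (z : Z) (m : ℕ) (s : List ℕ) (σ : Equiv.Perm ℕ) :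
    Str 𝒜 (σ • z) m s ↔ Str 𝒜 z m (s.map (fun j => σ⁻¹ j)) := by
  have h := Str_smul 𝒜 z m (s.map (fun j => σ⁻¹ j)) σ
  rw [List.map_map] at h
  have e : (⇑σ ∘ fun j => σ⁻¹ j) = id := by
    funext j
    simp
  rwa [e, List.map_id] at h

theorem d10_str_limit (𝒜 : ℕ → Set Z) (z : Z) (m : ℕ) (s : List ℕ) {σ τ : Equiv.Perm ℕ}
    (h : ∀ j ∈ s, σ⁻¹ j = τ⁻¹ j) : Str 𝒜 (σ • z) m s ↔ Str 𝒜 (τ • z) m s := by
  rw [d10_str, d10_str, List.map_congr_left h]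

/-- the states of the construction -/
structure D10St (f : (ℕ → ℝ) → Z) (𝒜 : ℕ → Set Z) (C : Set (ℕ → ℝ)) (e : ℕ → ℕ × List ℕ)
    (x y : ℕ → ℝ) (n : ℕ) (p q : ℕ → ℝ) (α β : Equiv.Perm ℕ) (V : Set (ℕ → ℝ)) : Prop where
  hp : p ∈ C
  hq : q ∈ C
  hpV : p ∈ V
  hqV : q ∈ V
  hVo : IsOpen V
  hα : f p = α • f x
  hβ : f q = β • f y
  hmove : ∀ U' : Set (ℕ → ℝ), IsOpen U' → (U' ∩ V).Nonempty →
    ∃ g : Gl, p + (g : ℕ → ℝ) ∈ C ∧ p + (g : ℕ → ℝ) ∈ U' ∧ p + (g : ℕ → ℝ) ∈ V ∧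
      RS f (d10m α n) p (p + g)
  hstr : ∀ i < n, ∀ z ∈ C, z ∈ V →
    (Str 𝒜 (f p) (e i).1 (e i).2 ↔ Str 𝒜 (f z) (e i).1 (e i).2)

variable {f : (ℕ → ℝ) → Z} {𝒜 : ℕ → Set Z} {C : Set (ℕ → ℝ)} {e : ℕ → ℕ × List ℕ}
    {x y : ℕ → ℝ}

theorem d10_init (hE : ∀ (x : ℕ → ℝ) (g : Gl), ∃ σ : Equiv.Perm ℕ, σ • f x = f (x + g))
    (hC1 : ∀ x ∈ C, ∀ᶠ (g : Gl) in residual Gl, x + (g : ℕ → ℝ) ∈ C)
    (hC3 : ∀ x ∈ C, ∀ n, ∃ U : Set (ℕ → ℝ), IsOpen U ∧ x ∈ U ∧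
        ∀ V ⊆ U, IsOpen V → Convex ℝ V → ∀ y ∈ C, y ∈ V → ∀ U' : Set (ℕ → ℝ), IsOpen U' →
          (U' ∩ V).Nonempty →
          ∃ g : Gl, y + (g : ℕ → ℝ) ∈ C ∧ y + (g : ℕ → ℝ) ∈ U' ∧ y + (g : ℕ → ℝ) ∈ V ∧
            RS f n y (y + g))
    (hx : x ∈ C) (hy : y ∈ C) :
    ∃ (p q : ℕ → ℝ) (α β : Equiv.Perm ℕ) (V : Set (ℕ → ℝ)), D10St f 𝒜 C e x y 0 p q α β V := by
  obtain ⟨U, hUo, hxU, hU⟩ := hC3 x hx (d10m 1 0)
  obtain ⟨V, hVU, hVo, hxV, hVc⟩ := exists_convex hUo hxU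
  have hopen : IsOpen {g : Gl | y + (g : ℕ → ℝ) ∈ V} :=
    hVo.preimage (continuous_const.add gl_coe_continuous)
  obtain ⟨g0, hg0⟩ := gl_dense y hVo ⟨x, hxV⟩
  have hd : Dense {g : Gl | y + (g : ℕ → ℝ) ∈ C} := dense_of_mem_residual (hC1 y hy)
  obtain ⟨g, hg1, hg2⟩ := hd.inter_open_nonempty _ hopen ⟨g0, hg0⟩
  obtain ⟨σ, hσ⟩ := hE y g
  exact ⟨x, y + g, 1, σ, V, hx, hg2, hxV, hg1, hVo, by rw [one_smul], hσ.symm,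
    fun U' hU' hne => hU V hVU hVo hVc x hx hxV U' hU' hne, fun i hi => absurd hi (Nat.not_lt_zero i)⟩

theorem d10_step
    (hC2 : ∀ x ∈ C, ∀ (m : ℕ) (s : List ℕ), ∃ U : Set (ℕ → ℝ), IsOpen U ∧ x ∈ U ∧
        ∀ y ∈ C, y ∈ U → (Str 𝒜 (f x) m s ↔ Str 𝒜 (f y) m s))
    (hC3 : ∀ x ∈ C, ∀ n, ∃ U : Set (ℕ → ℝ), IsOpen U ∧ x ∈ U ∧
        ∀ V ⊆ U, IsOpen V → Convex ℝ V → ∀ y ∈ C, y ∈ V → ∀ U' : Set (ℕ → ℝ), IsOpen U' →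
          (U' ∩ V).Nonempty →
          ∃ g : Gl, y + (g : ℕ → ℝ) ∈ C ∧ y + (g : ℕ → ℝ) ∈ U' ∧ y + (g : ℕ → ℝ) ∈ V ∧
            RS f n y (y + g))
    {n : ℕ} {p q : ℕ → ℝ} {α β : Equiv.Perm ℕ} {V : Set (ℕ → ℝ)}
    (S : D10St f 𝒜 C e x y n p q α β V) :
    ∃ (p' q' : ℕ → ℝ) (α' β' : Equiv.Perm ℕ) (V' : Set (ℕ → ℝ)),
      D10St f 𝒜 C e x y (n + 1) p' q' α' β' V' ∧
      (∀ j < n, α' j = α j ∧ α'⁻¹ j = α⁻¹ j) ∧ (∀ j < n, β' j = β j ∧ β'⁻¹ j = β⁻¹ j) := by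
  obtain ⟨U1, hU1o, hqU1, hU1⟩ := hC3 q S.hq (d10m β n)
  obtain ⟨V1, hV1, hV1o, hqV1, hV1c⟩ := exists_convex (S.hVo.inter hU1o) ⟨S.hqV, hqU1⟩
  obtain ⟨g, hg1, hg2, -, w, hw, hwf⟩ := S.hmove V1 hV1o ⟨q, hqV1, S.hqV⟩
  set p' := p + (g : ℕ → ℝ) with hp'
  obtain ⟨U2, hU2o, hpU2, hU2⟩ := hC3 p' hg1 (d10m (w * α) (n + 1))
  choose U hUo hpU hU using fun i : ℕ => hC2 p' hg1 (e i).1 (e i).2
  have hWo : IsOpen (⋂ i ∈ Finset.range (n + 1), U i) :=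
    isOpen_biInter_finset fun i _ => hUo i
  have hpW : p' ∈ ⋂ i ∈ Finset.range (n + 1), U i := by
    simp only [mem_iInter]
    exact fun i _ => hpU i
  obtain ⟨V2, hV2, hV2o, hpV2, hV2c⟩ :=
    exists_convex ((hV1o.inter hU2o).inter hWo) ⟨⟨hg2, hpU2⟩, hpW⟩
  obtain ⟨g', hg1', hg2', -, w', hw', hwf'⟩ :=
    hU1 V1 (fun z hz => (hV1 hz).2) hV1o hV1c q S.hq hqV1 V2 hV2o ⟨p', hpV2, hg2⟩
  refine ⟨p', q + (g' : ℕ → ℝ), w * α, w' * β, V2, ?_, fun j hj => d10_stab hw hj,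
    fun j hj => d10_stab hw' hj⟩
  refine ⟨hg1, hg1', hpV2, hg2', hV2o, ?_, ?_, ?_, ?_⟩
  · rw [← hwf, S.hα, mul_smul]
  · rw [← hwf', S.hβ, mul_smul]
  · intro U' hU' hne
    exact hU2 V2 (fun z hz => (hV2 hz).1.2) hV2o hV2c p' hg1 hpV2 U' hU' hne
  · intro i hi z hz hzV
    apply hU i z hz
    have := (hV2 hzV).2
    simp only [mem_iInter] at this
    exact this i (Finset.mem_range.2 hi)

theorem back_and_forth (hZ : Measurable (fun p : Equiv.Perm ℕ × Z => p.1 • p.2))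
    {f : (ℕ → ℝ) → Z}
    (hE : ∀ (x : ℕ → ℝ) (g : Gl), ∃ σ : Equiv.Perm ℕ, σ • f x = f (x + g))
    {𝒜 : ℕ → Set Z} (h𝒜 : ∀ n, MeasurableSet (𝒜 n))
    (hsep : ∀ z z' : Z, (∀ n, z ∈ 𝒜 n ↔ z' ∈ 𝒜 n) → z = z')
    {C : Set (ℕ → ℝ)} (hC1 : ∀ x ∈ C, ∀ᶠ (g : Gl) in residual Gl, x + (g : ℕ → ℝ) ∈ C)
    (hC2 : ∀ x ∈ C, ∀ (m : ℕ) (s : List ℕ), ∃ U : Set (ℕ → ℝ), IsOpen U ∧ x ∈ U ∧
        ∀ y ∈ C, y ∈ U → (Str 𝒜 (f x) m s ↔ Str 𝒜 (f y) m s))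
    (hC3 : ∀ x ∈ C, ∀ n, ∃ U : Set (ℕ → ℝ), IsOpen U ∧ x ∈ U ∧
        ∀ V ⊆ U, IsOpen V → Convex ℝ V → ∀ y ∈ C, y ∈ V → ∀ U' : Set (ℕ → ℝ), IsOpen U' →
          (U' ∩ V).Nonempty →
          ∃ g : Gl, y + (g : ℕ → ℝ) ∈ C ∧ y + (g : ℕ → ℝ) ∈ U' ∧ y + (g : ℕ → ℝ) ∈ V ∧
            RS f n y (y + g))
    {x y : ℕ → ℝ} (hx : x ∈ C) (hy : y ∈ C) : ∃ σ : Equiv.Perm ℕ, σ • f x = f y := by
  obtain ⟨e, he⟩ := exists_surjective_nat (ℕ × List ℕ)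
  obtain ⟨p₀, q₀, α₀, β₀, V₀, h₀⟩ := d10_init (𝒜 := 𝒜) (e := e) hE hC1 hC3 hx hy
  -- the sequence of states
  let T := (ℕ → ℝ) × (ℕ → ℝ) × Equiv.Perm ℕ × Equiv.Perm ℕ × Set (ℕ → ℝ)
  let P : ℕ → T → Prop := fun n t => D10St f 𝒜 C e x y n t.1 t.2.1 t.2.2.1 t.2.2.2.1 t.2.2.2.2
  let R : ℕ → T → T → Prop := fun n t t' =>
    (∀ j < n, t'.2.2.1 j = t.2.2.1 j ∧ t'.2.2.1⁻¹ j = t.2.2.1⁻¹ j) ∧
    (∀ j < n, t'.2.2.2.1 j = t.2.2.2.1 j ∧ t'.2.2.2.1⁻¹ j = t.2.2.2.1⁻¹ j)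
  have hstep : ∀ (n : ℕ) (t : T), ∃ t' : T, P n t → P (n + 1) t' ∧ R n t t' := by
    intro n t
    by_cases ht : P n t
    · obtain ⟨p', q', α', β', V', h1, h2, h3⟩ := d10_step hC2 hC3 ht
      exact ⟨(p', q', α', β', V'), fun _ => ⟨h1, h2, h3⟩⟩
    · exact ⟨t, fun h => absurd h ht⟩
  choose F hF using hstep
  let s : ℕ → T := fun n => Nat.rec (p₀, q₀, α₀, β₀, V₀) (fun n t => F n t) n
  have hs : ∀ n, P n (s n) := by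
    intro n
    induction n with
    | zero => exact h₀
    | succ n ih => exact (hF n (s n) ih).1
  have hR : ∀ n, R n (s n) (s (n + 1)) := fun n => (hF n (s n) (hs n)).2
  obtain ⟨a, ha⟩ := d10_limit (fun n => (s n).2.2.1) fun n => (hR n).1
  obtain ⟨b, hb⟩ := d10_limit (fun n => (s n).2.2.2.1) fun n => (hR n).2
  have key : a • f x = b • f y := by
    apply Str_inj hZ h𝒜 hsep
    intro m l
    obtain ⟨i, hi⟩ := he (m, l)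
    set n := i + l.sum + 1 with hn
    have hl : ∀ j ∈ l, j < n := by
      intro j hj
      have := List.single_le_sum (fun _ _ => Nat.zero_le _) j hj
      omega
    have S := hs n
    have e1 : Str 𝒜 (a • f x) m l ↔ Str 𝒜 ((s n).2.2.1 • f x) m l :=
      d10_str_limit 𝒜 _ m l fun j hj => ((ha j n (hl j hj)).2).symm
    have e2 : Str 𝒜 (b • f y) m l ↔ Str 𝒜 ((s n).2.2.2.1 • f y) m l :=
      d10_str_limit 𝒜 _ m l fun j hj => ((hb j n (hl j hj)).2).symm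
    have e3 := S.hstr i (by omega) (s n).2.1 S.hq S.hqV
    rw [hi] at e3
    rw [e1, e2, ← S.hα, ← S.hβ]
    exact e3
  refine ⟨b⁻¹ * a, ?_⟩
  rw [mul_smul, key, inv_smul_smul]

end

end KakC
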