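import Pool.Agent.Helper81.Kak.D2
import Pool.Agent.Helper31.Kak.D4

/-!
# Module D6 (problem MP_013a6c_an)
-/

open MeasureTheory Set Topology Filter
open scoped symmDiff ENNReal ProbabilityTheory

namespace KakC

section
variable {Z : Type*} [MeasurableSpace Z] [StandardBorelSpace Z] [MulAction (Equiv.Perm ℕ) Z]

/-- Module D6. Uses D2, D4, D5. -/
theorem homog {f : (ℕ → ℝ) → Z} (n : ℕ)
    (h1 : BaireMeasurableSet {p : (ℕ → ℝ) × Gl | RS f n p.1 (p.1 + p.2)})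
    (h2 : ∀ x : ℕ → ℝ, ∀ᶠ (g : Gl) in residual Gl, ∃ ρ : ℝ, 0 < ρ ∧
      ∀ᶠ (g' : Gl) in residual Gl, ‖g'‖ < ρ → RS f n (x + g) (x + g + g')) :
    ∀ᶠ x in residual (ℕ → ℝ), ∃ U : Set (ℕ → ℝ), IsOpen U ∧ x ∈ U ∧ ∃ ρ : ℝ, 0 < ρ ∧
      ∀ᶠ x' in residual (ℕ → ℝ), x' ∈ U → ∀ᶠ (g : Gl) in residual Gl, ‖g‖ < ρ →
        RS f n x' (x' + g) := by
  have : PolishSpace Gl := gl_polish
  have : SecondCountableTopology Gl := PolishSpace.toSecondCountableTopology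
  let D : ℕ → Set (ℕ → ℝ) := fun m => {x | ∀ᶠ g in residual Gl,
    g ∈ Metric.ball (0 : Gl) (1 / ((m : ℝ) + 1)) →
      (x, g) ∈ {p : (ℕ → ℝ) × Gl | RS f n p.1 (p.1 + p.2)}}
  have hD : ∀ m, BaireMeasurableSet (D m) := fun m => ku_baire h1 Metric.isOpen_ball
  have hres : (⋃ m, D m) ∈ residual (ℕ → ℝ) := by
    by_contra hcon
    obtain ⟨U, hUo, hUne, hU⟩ := exists_open_of_not_residual (BaireMeasurableSet.iUnion hD) hcon
    have h3 := ku (gl_add_residual hU)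
    obtain ⟨x, hx'⟩ := (dense_of_mem_residual h3).nonempty
    have hx : ∀ᶠ (g : Gl) in residual Gl, x + (g : ℕ → ℝ) ∈ U → x + (g : ℕ → ℝ) ∉ ⋃ i, D i := hx'
    have hopen : IsOpen {g : Gl | x + (g : ℕ → ℝ) ∈ U} :=
      hUo.preimage (continuous_const.add gl_coe_continuous)
    obtain ⟨g0, hg0⟩ := gl_dense x hUo hUne
    obtain ⟨g, hg, hg1, hg2⟩ := (dense_of_mem_residual (hx.and (h2 x))).inter_open_nonempty _
      hopen ⟨g0, hg0⟩
    apply hg1 hg
    obtain ⟨ρ, hρ, hg3⟩ := hg2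
    obtain ⟨m, hm⟩ := exists_nat_one_div_lt hρ
    refine mem_iUnion.2 ⟨m, ?_⟩
    filter_upwards [hg3] with g' hg' hball
    apply hg'
    rw [mem_ball_zero_iff] at hball
    exact hball.trans hm
  choose U hUo hU using fun m => (hD m).residualEq_isOpen
  have hall : ∀ᶠ x in residual (ℕ → ℝ), ∀ m, (x ∈ D m ↔ x ∈ U m) := by
    rw [eventually_countable_forall]
    intro m
    exact Filter.eventuallyEq_set.1 (hU m)
  filter_upwards [hres, hall] with x hx hx'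
  obtain ⟨m, hm⟩ := mem_iUnion.1 hx
  refine ⟨U m, hUo m, (hx' m).1 hm, 1 / ((m : ℝ) + 1), by positivity, ?_⟩
  filter_upwards [hall] with x' h' hxU
  have h4 : x' ∈ D m := (h' m).2 hxU
  filter_upwards [h4] with g hg hgn
  exact hg (by rw [mem_ball_zero_iff]; exact hgn)

end

end KakC
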